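import Pool.Agent.H982Z.Scat.Reals
import Pool.Agent.H982Z.Sym.Atoms

/-!
# The integers with the 2-adic structure as atoms
-/

set_option autoImplicit false

namespace Pool.Agent.H982Z.Scat

open Pool.Agent.H164Z.Bspt Pool.Agent.H982Z.Sym

/-- Congruence modulo `2 ^ k`. -/
def Cg (k : ℕ) (a b : ℤ) : Prop := (2 : ℤ) ^ k ∣ a - b

theorem Cg.refl (k : ℕ) (a : ℤ) : Cg k a a := by simp [Cg]

theorem Cg.symm {k : ℕ} {a b : ℤ} (h : Cg k a b) : Cg k b a := by
  unfold Cg at *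
  rw [← neg_sub]
  exact h.neg_right

theorem Cg.trans {k : ℕ} {a b c : ℤ} (h : Cg k a b) (h' : Cg k b c) : Cg k a c := by
  unfold Cg at *
  have := h.add h'
  rwa [sub_add_sub_cancel] at this

theorem Cg.mono {k j : ℕ} {a b : ℤ} (h : Cg k a b) (hj : j ≤ k) : Cg j a b :=
  (pow_dvd_pow 2 hj).trans h

theorem cg_zero (a b : ℤ) : Cg 0 a b := by simp [Cg]

theorem cg_add (k : ℕ) (a : ℤ) : Cg k a (a + 2 ^ k) := by simp [Cg]

theorem exists_not_cg {a b : ℤ} (h : a ≠ b) : ∃ k, ¬ Cg (k + 1) a b := by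
  refine ⟨(a - b).natAbs, fun h1 => ?_⟩
  have h2 := Int.le_of_dvd (abs_pos.2 (sub_ne_zero.2 h)) ((dvd_abs _ _).2 h1)
  have h3 : (a - b).natAbs + 1 < 2 ^ ((a - b).natAbs + 1) := Nat.lt_two_pow_self
  have h4 : (((a - b).natAbs + 1 : ℕ) : ℤ) < ((2 ^ ((a - b).natAbs + 1) : ℕ) : ℤ) := by
    exact_mod_cast h3
  push_cast at h4
  omega

theorem exists_not_cg_fin (E : Finset ℤ) {a : ℤ} (h : a ∉ E) : ∃ k, ∀ e ∈ E, ¬ Cg k a e := by
  classical
  induction E using Finset.induction_on with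
  | empty => exact ⟨0, by simp⟩
  | insert e E _ ih =>
    obtain ⟨k, hk⟩ := ih fun h1 => h (Finset.mem_insert_of_mem h1)
    obtain ⟨j, hj⟩ := exists_not_cg (a := a) (b := e) fun h1 => h (h1 ▸ Finset.mem_insert_self _ _)
    refine ⟨k + (j + 1), fun e' he' h1 => ?_⟩
    rcases Finset.mem_insert.1 he' with rfl | h2
    · exact hj (h1.mono (by omega))
    · exact hk e' h2 (h1.mono (by omega))

/-- The 2-adic isometries of the integers. -/
def HH : Subgroup (Equiv.Perm ℤ) where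
  carrier := {ρ | ∀ k a b, Cg k (ρ a) (ρ b) ↔ Cg k a b}
  one_mem' := fun _ _ _ => Iff.rfl
  mul_mem' := fun {ρ σ} h h' k a b => (h k (σ a) (σ b)).trans (h' k a b)
  inv_mem' := fun {ρ} h k a b => by
    have := h k (ρ⁻¹ a) (ρ⁻¹ b)
    rw [p_ai, p_ai] at this
    exact this.symm

theorem exists_move (E : Finset ℤ) {k : ℕ} {a b : ℤ} (hab : Cg k a b)
    (hE : ∀ e ∈ E, ¬ Cg k a e) : ∃ ρ : HH, (∀ e ∈ E, ρ.1 e = e) ∧ ρ.1 a = b := by
  classical
  have h1 : ∀ x, Cg k a (x + (b - a)) ↔ Cg k a x := fun x => by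
    unfold Cg at *
    rw [show a - (x + (b - a)) = (a - x) + (a - b) by ring]
    exact dvd_add_left hab
  have h2 : ∀ x, Cg k a (x - (b - a)) ↔ Cg k a x := fun x => by
    rw [← h1]; simp
  let ρ : Equiv.Perm ℤ := ⟨fun x => if Cg k a x then x + (b - a) else x,
    fun x => if Cg k a x then x - (b - a) else x, fun x => by
      by_cases h : Cg k a x
      · simp [h, h1]
      · simp [h], fun x => by
      by_cases h : Cg k a x
      · simp [h, h2]
      · simp [h]⟩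
  have hρ : ∀ x, ρ x = if Cg k a x then x + (b - a) else x := fun x => rfl
  have key : ∀ j x y, Cg k a x → ¬ Cg k a y → (Cg j (x + (b - a)) y ↔ Cg j x y) := by
    intro j x y hx hy
    rcases le_total j k with h | h
    · have h3 : Cg j x (x + (b - a)) := by
        have := hab.mono h
        unfold Cg at *
        rwa [show x - (x + (b - a)) = a - b by ring]
      exact ⟨h3.trans, h3.symm.trans⟩
    · exact iff_of_false (fun h3 => hy (((h1 x).2 hx).trans (h3.mono h)))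
        (fun h3 => hy (hx.trans (h3.mono h)))
  refine ⟨⟨ρ, fun j x y => ?_⟩, fun e he => ?_, ?_⟩
  · rw [hρ, hρ]
    by_cases hx : Cg k a x <;> by_cases hy : Cg k a y
    · rw [if_pos hx, if_pos hy]
      unfold Cg
      rw [add_sub_add_right_eq_sub]
    · rw [if_pos hx, if_neg hy]
      exact key j x y hx hy
    · rw [if_neg hx, if_pos hy]
      exact ⟨fun h => ((key j y x hy hx).1 h.symm).symm, fun h => ((key j y x hy hx).2 h.symm).symm⟩
    · rw [if_neg hx, if_neg hy]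
  · change ρ e = e
    rw [hρ, if_neg (hE e he)]
  · change ρ a = b
    rw [hρ, if_pos (Cg.refl k a)]
    ring

/-- The objects. -/
inductive TT : Type
  | atm (a : ℤ)
  | up (s t : TT)
  | X
  | eqv (k : ℕ)
  | lev
  | suc

namespace TT

/-- code -/
def code : TT → ℕ
  | atm a => Nat.pair 0 (Encodable.encode a)
  | up s t => Nat.pair 1 (Nat.pair s.code t.code)
  | X => Nat.pair 2 0
  | eqv k => Nat.pair 3 k
  | lev => Nat.pair 4 0
  | suc => Nat.pair 5 0

theorem code_inj : ∀ s t : TT, s.code = t.code → s = t := by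
  intro s
  induction s with
  | up s s' ih ih' =>
    intro t h
    cases t <;> simp [code] at h
    rw [ih _ h.1, ih' _ h.2]
  | _ => intro t h; cases t <;> simp_all [code]

instance : Countable TT := Function.Injective.countable (f := code) fun _ _ => code_inj _ _

instance : Nonempty TT := ⟨X⟩

/-- ordered pairs -/
def op (s t : TT) : TT := up (up s s) (up s t)

/-- membership -/
def mem (σ : TT) : TT → Prop
  | atm _ => False
  | up s t => σ = s ∨ σ = t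
  | X => ∃ a, σ = atm a
  | eqv k => ∃ a b, Cg k a b ∧ σ = op (atm a) (atm b)
  | lev => ∃ k, σ = eqv k
  | suc => ∃ k, σ = op (eqv k) (eqv (k + 1))

/-- rank -/
def rk : TT → ℕ
  | atm _ => 0
  | up s t => max s.rk t.rk + 1
  | X => 1
  | eqv _ => 3
  | lev => 4
  | suc => 6

theorem rk_lt {σ τ : TT} (h : mem σ τ) : σ.rk < τ.rk := by
  cases τ with
  | atm a => exact h.elim
  | up s t => rcases h with rfl | rfl <;> simp only [rk] <;> omega
  | X => obtain ⟨a, rfl⟩ := h; simp [rk]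
  | eqv k => obtain ⟨a, b, -, rfl⟩ := h; simp [rk, op]
  | lev => obtain ⟨a, rfl⟩ := h; simp [rk]
  | suc => obtain ⟨a, rfl⟩ := h; simp [rk, op]

/-- action -/
def sm (ρ : HH) : TT → TT
  | atm a => atm (ρ.1 a)
  | up s t => up (sm ρ s) (sm ρ t)
  | X => X
  | eqv k => eqv k
  | lev => lev
  | suc => suc

instance : MulAction HH TT where
  smul := sm
  one_smul t := by
    change sm 1 t = t
    induction t with
    | up s t ih ih' => simp only [sm, ih, ih']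
    | _ => rfl
  mul_smul ρ σ t := by
    change sm (ρ * σ) t = sm ρ (sm σ t)
    induction t with
    | up s t ih ih' => simp only [sm, ih, ih']
    | _ => rfl

/-- support -/
def sp : TT → Finset ℤ
  | atm a => {a}
  | up s t => s.sp ∪ t.sp
  | _ => ∅

/-- The fragment. -/
def frag : Frag HH TT where
  atm := atm
  mem := mem
  wf := Subrelation.wf (fun h => rk_lt h) (InvImage.wf rk Nat.lt_wfRel.wf)
  inj := fun _ _ h => atm.inj h
  sm_atm := fun _ _ => rfl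
  sm_mem := fun ρ σ τ h => by
    cases τ with
    | atm a => exact h.elim
    | up s t => exact h.imp (congrArg (sm ρ)) (congrArg (sm ρ))
    | X => obtain ⟨a, rfl⟩ := h; exact ⟨_, rfl⟩
    | eqv k => obtain ⟨a, b, h, rfl⟩ := h; exact ⟨_, _, (ρ.2 k a b).2 h, rfl⟩
    | lev => obtain ⟨a, rfl⟩ := h; exact ⟨_, rfl⟩
    | suc => obtain ⟨a, rfl⟩ := h; exact ⟨_, rfl⟩
  supp := fun τ => ⟨τ.sp, fun ρ h => by
    change sm ρ τ = τ
    induction τ with
    | atm a => simp only [sm]; rw [h a (Finset.mem_singleton_self a)]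
    | up s t ih ih' =>
      simp only [sm]
      rw [ih fun a ha => h a (Finset.mem_union_left _ ha),
        ih' fun a ha => h a (Finset.mem_union_right _ ha)]
    | _ => rfl⟩

end TT

/-- What is used about the model. -/
structure AdicModel {N : Type} (S : Str N) (α : ℤ → N) (ε : ℕ → N) (X lev suc : N) : Prop where
  inj : Function.Injective α
  memX : ∀ x, S.E x X ↔ ∃ a, x = α a
  relE : ∀ k x y, Rel S.E (ε k) x y ↔ ∃ a b, Cg k a b ∧ x = α a ∧ y = α b
  memL : ∀ e, S.E e lev ↔ ∃ k, e = ε k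
  relS : ∀ e e', Rel S.E suc e e' ↔ ∃ k, e = ε k ∧ e' = ε (k + 1)
  supp₁ : ∀ Y, ∃ E : Finset ℤ, ∀ ρ : HH, (∀ e ∈ E, ρ.1 e = e) →
    ∀ a, S.E (α a) Y → S.E (α (ρ.1 a)) Y
  supp₂ : ∀ Y, ∃ E : Finset ℤ, ∀ ρ : HH, (∀ e ∈ E, ρ.1 e = e) →
    ∀ a k, Rel S.E Y (α a) (ε k) → Rel S.E Y (α (ρ.1 a)) (ε k)

theorem exists_adicModel : ∃ (N : Type) (S : Str N) (α : ℤ → N) (ε : ℕ → N) (X lev suc : N),
    AdicModel S α ε X lev suc := by
  obtain ⟨N, S, val, -, h1, -, h2, h3⟩ := TT.frag.exists_model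
  have hup : ∀ s t x, S.E x (val (.up s t)) ↔ x = val s ∨ x = val t := fun s t x => by
    rw [h2 _ (fun a h => by cases h)]
    constructor
    · rintro ⟨σ, rfl | rfl, rfl⟩
      · exact Or.inl rfl
      · exact Or.inr rfl
    · rintro (rfl | rfl)
      · exact ⟨s, Or.inl rfl, rfl⟩
      · exact ⟨t, Or.inr rfl, rfl⟩
  have hop : ∀ s t, IsOP S.E (val (TT.op s t)) (val s) (val t) := fun s t x => by
    rw [TT.op, hup]
    refine or_congr ⟨?_, fun h => ?_⟩ ⟨?_, fun h => ?_⟩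
    · rintro rfl z; rw [hup, or_self]
    · exact S.zf.ext _ _ fun z => by rw [h, hup, or_self]
    · rintro rfl z; rw [hup]
    · exact S.zf.ext _ _ fun z => by rw [h, hup]
  have hrel : ∀ Y s t, Rel S.E Y (val s) (val t) ↔ S.E (val (TT.op s t)) Y := fun Y s t =>
    ⟨fun ⟨p, h4, h5⟩ => S.op_unique h5 (hop s t) ▸ h4, fun h => ⟨_, h, hop s t⟩⟩
  refine ⟨N, S, fun a => val (.atm a), fun k => val (.eqv k), val .X, val .lev, val .suc,
    fun a b => h1 a b, fun x => ?_, fun k x y => ⟨?_, ?_⟩, fun e => ?_, fun e e' => ⟨?_, ?_⟩,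
    fun Y => ?_, fun Y => ?_⟩
  · rw [h2 _ (fun a h => by cases h)]
    exact ⟨fun ⟨_, ⟨a, rfl⟩, h⟩ => ⟨a, h⟩, fun ⟨a, h⟩ => ⟨_, ⟨a, rfl⟩, h⟩⟩
  · rintro ⟨p, h4, h5⟩
    obtain ⟨_, ⟨a, b, h6, rfl⟩, rfl⟩ := (h2 _ (fun a h => by cases h) p).1 h4
    exact ⟨a, b, h6, S.op_inj h5 (hop _ _)⟩
  · rintro ⟨a, b, h4, rfl, rfl⟩
    exact (hrel _ _ _).2 ((h2 _ (fun a h => by cases h) _).2 ⟨_, ⟨a, b, h4, rfl⟩, rfl⟩)
  · rw [h2 _ (fun a h => by cases h)]
    exact ⟨fun ⟨_, ⟨a, rfl⟩, h⟩ => ⟨a, h⟩, fun ⟨a, h⟩ => ⟨_, ⟨a, rfl⟩, h⟩⟩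
  · rintro ⟨p, h4, h5⟩
    obtain ⟨_, ⟨k, rfl⟩, rfl⟩ := (h2 _ (fun a h => by cases h) p).1 h4
    exact ⟨k, S.op_inj h5 (hop _ _)⟩
  · rintro ⟨k, rfl, rfl⟩
    exact (hrel _ _ _).2 ((h2 _ (fun a h => by cases h) _).2 ⟨_, ⟨k, rfl⟩, rfl⟩)
  · obtain ⟨E, hE⟩ := h3 Y
    exact ⟨E, fun ρ hρ a => hE ρ hρ (.atm a)⟩
  · obtain ⟨E, hE⟩ := h3 Y
    refine ⟨E, fun ρ hρ a k h => ?_⟩
    rw [hrel] at h ⊢
    exact hE ρ hρ _ h

end Pool.Agent.H982Z.Scat
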