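import Pool.Agent.H164Z.BsptDefs

/-!
# Real numbers, metrizable, compact and scattered spaces inside a model of set theory

A structure for the language of set theory is a type `M` with a binary relation `E`
(`E x y` means that `x` is an element of `y` in the structure). `IsZF`, `Sub`, `IsOP`, `Rel` and
`IsFin` are from the imported file.
-/

set_option autoImplicit false

namespace Pool.Agent.H982Z.Scat

open Pool.Agent.H164Z.Bspt

universe u

variable {M : Type u} (E : M → M → Prop)

/-- The elements of `a` in the structure, as a type. -/
def El (a : M) : Type u := {x : M // E x a}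

/-- The triple `((x, y), z)` is an element of `g`. -/
def Rel3 (g x y z : M) : Prop := ∃ p, IsOP E p x y ∧ Rel E g p z

/-- `El E r` is the field of real numbers of the structure: an ordered field whose addition,
multiplication and order are given by elements of the structure, and in which every nonempty
subset that is in the structure and is bounded above has a least upper bound. -/
structure IsReals (r : M) [Field (El E r)] [LinearOrder (El E r)]
    [IsStrictOrderedRing (El E r)] : Prop where
  add : ∃ g, ∀ x y z : El E r, x + y = z ↔ Rel3 E g x.1 y.1 z.1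
  mul : ∃ g, ∀ x y z : El E r, x * y = z ↔ Rel3 E g x.1 y.1 z.1
  le : ∃ g, ∀ x y : El E r, x ≤ y ↔ Rel E g x.1 y.1
  complete : ∀ s, Sub E s r → (∃ x, E x s) → (∃ b : El E r, ∀ x : El E r, E x.1 s → x ≤ b) →
    ∃ c : El E r, IsLUB {x : El E r | E x.1 s} c

/-- In the structure, `τ` is the topology on `X` induced by a metric: there is a real valued
metric `d` on `X` whose graph is in the structure, and the elements of `τ` are exactly the
subsets of `X` that contain a ball around each of their points. -/
def Metrizable (X τ : M) : Prop :=
  ∃ (r : M) (_ : Field (El E r)) (_ : LinearOrder (El E r)) (_ : IsStrictOrderedRing (El E r)),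
    IsReals E r ∧ ∃ d : El E X → El E X → El E r,
      (∃ g, ∀ x y z, d x y = z ↔ Rel3 E g x.1 y.1 z.1) ∧
      (∀ x y, d x y = 0 ↔ x = y) ∧ (∀ x y, d x y = d y x) ∧
      (∀ x y z, d x z ≤ d x y + d y z) ∧
      ∀ U, E U τ ↔ Sub E U X ∧
        ∀ x : El E X, E x.1 U → ∃ ε : El E r, 0 < ε ∧ ∀ y : El E X, d x y < ε → E y.1 U

/-- In the structure, the space `X` with topology `τ` is compact: every subfamily `C` of `τ` that
covers `X` has a finite subfamily that covers `X`. -/
def Compact (X τ : M) : Prop :=
  ∀ C, Sub E C τ → (∀ x, E x X → ∃ U, E U C ∧ E x U) →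
    ∃ D, Sub E D C ∧ IsFin E D ∧ ∀ x, E x X → ∃ U, E U D ∧ E x U

/-- `z` is an isolated point of the subspace `Z`: some `U` in `τ` meets `Z` exactly in `z`. -/
def Isolated (τ Z z : M) : Prop := ∃ U, E U τ ∧ ∀ w, (E w U ∧ E w Z) ↔ w = z

/-- The subspace `Y` is scattered: every nonempty subset `Z` of `Y` in the structure has a point
that is isolated in the subspace `Z`. -/
def Scattered (τ Y : M) : Prop := ∀ Z, Sub E Z Y → (∃ z, E z Z) → ∃ z, Isolated E τ Z z

end Pool.Agent.H982Z.Scat
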