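import Pool.Agent.H982Z.Scat.Adic

/-!
# The 2-adic space of atoms is compact, metrizable, dense in itself, and its scattered subspaces
are finite
-/

set_option autoImplicit false

namespace Pool.Agent.H982Z.Scat

open Pool.Agent.H164Z.Bspt Pool.Agent.H982Z.Sym

variable {N : Type} {S : Str N} {α : ℤ → N} {ε : ℕ → N} {X lev suc : N}

namespace AdicModel

variable (h : AdicModel S α ε X lev suc)
include h

theorem rel_iff (k : ℕ) (a b : ℤ) : Rel S.E (ε k) (α a) (α b) ↔ Cg k a b := by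
  rw [h.relE]
  constructor
  · rintro ⟨a', b', h1, h2, h3⟩
    rwa [h.inj h2, h.inj h3]
  · exact fun h1 => ⟨a, b, h1, rfl, rfl⟩

theorem eps_inj : Function.Injective ε := by
  have key : ∀ k j, k < j → ε k ≠ ε j := fun k j hkj h1 => by
    have h2 := (h.rel_iff k 0 (0 + 2 ^ k)).2 (cg_add k 0)
    rw [h1, h.rel_iff] at h2
    have h3 : (2 : ℤ) ^ j ∣ 2 ^ k := by simpa [Cg] using h2
    have h4 := (pow_dvd_pow_iff (by norm_num) (by
      rw [Int.isUnit_iff]; norm_num)).1 h3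
    omega
  intro k j h1
  rcases lt_trichotomy k j with h2 | h2 | h2
  · exact absurd h1 (key k j h2)
  · exact h2
  · exact absurd h1.symm (key j k h2)

theorem ex_ball (k : ℕ) (a : ℤ) : ∃ B, ∀ x, S.E x B ↔ ∃ b, Cg k a b ∧ x = α b := by
  obtain ⟨B, hB⟩ := S.sep (fun y => Rel S.E (ε k) (α a) y) X
  refine ⟨B, fun x => (hB x).trans ⟨?_, ?_⟩⟩
  · rintro ⟨h1, h2⟩
    obtain ⟨b, rfl⟩ := (h.memX x).1 h1
    exact ⟨b, (h.rel_iff k a b).1 h2, rfl⟩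
  · rintro ⟨b, h1, rfl⟩
    exact ⟨(h.memX _).2 ⟨b, rfl⟩, (h.rel_iff k a b).2 h1⟩

theorem ex_top : ∃ τ, ∀ U, S.E U τ ↔ Sub S.E U X ∧
    ∀ a, S.E (α a) U → ∃ k, ∀ b, Cg k a b → S.E (α b) U := by
  obtain ⟨W, hW⟩ := S.zf.power X
  obtain ⟨τ, hτ⟩ := S.sep (fun U => ∀ x, S.E x U → ∃ e, S.E e lev ∧
    ∀ y, Rel S.E e x y → S.E y U) W
  refine ⟨τ, fun U => (hτ U).trans ((and_congr_left' (hW U)).trans
    (and_congr_right fun hU => ⟨fun h1 a ha => ?_, fun h1 x hx => ?_⟩))⟩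
  · obtain ⟨e, h2, h3⟩ := h1 _ ha
    obtain ⟨k, rfl⟩ := (h.memL e).1 h2
    exact ⟨k, fun b hb => h3 _ ((h.rel_iff k a b).2 hb)⟩
  · obtain ⟨a, rfl⟩ := (h.memX x).1 (hU x hx)
    obtain ⟨k, hk⟩ := h1 a hx
    refine ⟨ε k, (h.memL _).2 ⟨k, rfl⟩, fun y hy => ?_⟩
    obtain ⟨a', b, h2, h3, rfl⟩ := (h.relE _ _ _).1 hy
    exact hk b (h.inj h3 ▸ h2)

section top

variable {τ : N} (hτ : ∀ U, S.E U τ ↔ Sub S.E U X ∧
    ∀ a, S.E (α a) U → ∃ k, ∀ b, Cg k a b → S.E (α b) U)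
include hτ

theorem not_isolated {Z : N} {k : ℕ} {a : ℤ} (hZ : ∀ x, S.E x Z ↔ ∃ b, Cg k a b ∧ x = α b)
    (z : N) : ¬ Isolated S.E τ Z z := by
  rintro ⟨U, hU, h1⟩
  obtain ⟨h2, h3⟩ := (h1 z).2 rfl
  obtain ⟨c, h4, rfl⟩ := (hZ z).1 h3
  obtain ⟨j, hj⟩ := ((hτ U).1 hU).2 c h2
  have h5 := (h1 (α (c + 2 ^ (j + k)))).1 ⟨hj _ ((cg_add _ c).mono (by omega)),
    (hZ _).2 ⟨_, h4.trans ((cg_add _ c).mono (by omega)), rfl⟩⟩
  have h6 := h.inj h5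
  have h7 : (0 : ℤ) < 2 ^ (j + k) := by positivity
  omega

theorem fin_of_scattered (Y : N) (hY : Sub S.E Y X) (hs : Scattered S.E τ Y) : IsFin S.E Y := by
  classical
  obtain ⟨E, hE⟩ := h.supp₁ Y
  have key : ∀ a, S.E (α a) Y → a ∈ E := by
    intro a ha
    by_contra h1
    obtain ⟨k, hk⟩ := exists_not_cg_fin E h1
    obtain ⟨B, hB⟩ := h.ex_ball k a
    obtain ⟨z, hz⟩ := hs B (fun x hx => by
      obtain ⟨b, h2, rfl⟩ := (hB x).1 hx
      obtain ⟨ρ, h3, rfl⟩ := exists_move E h2 hk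
      exact hE ρ h3 a ha) ⟨_, (hB _).2 ⟨a, Cg.refl k a, rfl⟩⟩
    exact h.not_isolated hτ hB z hz
  obtain ⟨D, h1, h2⟩ := ex_fin S (E.filter fun a => S.E (α a) Y) α
  rw [S.zf.ext Y D fun x => ?_]
  · exact h1
  · rw [h2]
    constructor
    · intro hx
      obtain ⟨a, rfl⟩ := (h.memX x).1 (hY x hx)
      exact ⟨a, Finset.mem_filter.2 ⟨key a hx, hx⟩, rfl⟩
    · rintro ⟨a, ha, rfl⟩
      exact (Finset.mem_filter.1 ha).2

theorem compact : Compact S.E X τ := by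
  classical
  intro C hC hcov
  obtain ⟨W, hW⟩ := ex_rel S X lev (fun x e => ∃ U, S.E U C ∧ ∀ y, Rel S.E e x y → S.E y U)
    (D2.of _)
  let G : ℤ → ℕ → Prop := fun a k => ∃ U, S.E U C ∧ ∀ b, Cg k a b → S.E (α b) U
  have hG : ∀ a k, Rel S.E W (α a) (ε k) ↔ G a k := fun a k => by
    rw [hW]
    refine ⟨fun ⟨_, _, U, h1, h2⟩ => ⟨U, h1, fun b hb => h2 _ ((h.rel_iff k a b).2 hb)⟩,
      fun ⟨U, h1, h2⟩ => ⟨(h.memX _).2 ⟨a, rfl⟩, (h.memL _).2 ⟨k, rfl⟩, U, h1, fun y hy => ?_⟩⟩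
    obtain ⟨a', b, h3, h4, rfl⟩ := (h.relE _ _ _).1 hy
    exact h2 b (h.inj h4 ▸ h3)
  obtain ⟨E, hE⟩ := h.supp₂ W
  have h1 : ∀ a, ∃ k, G a k := fun a => by
    obtain ⟨U, h1, h2⟩ := hcov _ ((h.memX _).2 ⟨a, rfl⟩)
    obtain ⟨k, hk⟩ := ((hτ U).1 (hC U h1)).2 a h2
    exact ⟨k, U, h1, hk⟩
  choose κ hκ using h1
  have h2 : ∀ a k j, G a k → k ≤ j → G a j := fun a k j ⟨U, h3, h4⟩ hj =>
    ⟨U, h3, fun b hb => h4 b (hb.mono hj)⟩
  have hres : ∀ (K : ℕ) (a : ℤ), ∃ c ∈ Finset.Ico (0 : ℤ) (2 ^ K), Cg K c a := fun K a => by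
    have h0 : (0 : ℤ) < 2 ^ K := by positivity
    refine ⟨a % 2 ^ K, Finset.mem_Ico.2 ⟨Int.emod_nonneg _ h0.ne', Int.emod_lt_of_pos _ h0⟩, ?_⟩
    exact Cg.symm (Int.dvd_self_sub_emod)
  let K₀ := E.sup κ
  let K := max K₀ ((Finset.Ico (0 : ℤ) (2 ^ K₀)).sup κ)
  have h3 : ∀ a, G a K := fun a => by
    by_cases h4 : ∃ e ∈ E, Cg K₀ a e
    · obtain ⟨e, he, h4⟩ := h4
      obtain ⟨U, h5, h6⟩ := h2 e _ K₀ (hκ e) (Finset.le_sup (f := κ) he)
      exact h2 a K₀ K ⟨U, h5, fun b hb => h6 b (h4.symm.trans hb)⟩ (le_max_left _ _)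
    · obtain ⟨c, hc, h5⟩ := hres K₀ a
      obtain ⟨ρ, h6, rfl⟩ := exists_move E h5 fun e he h7 => h4 ⟨e, he, h5.symm.trans h7⟩
      exact h2 _ _ K ((hG _ _).1 (hE ρ h6 c _ ((hG _ _).2 (hκ c))))
        ((Finset.le_sup (f := κ) hc).trans (le_max_right _ _))
  choose U hU1 hU2 using h3
  obtain ⟨D, h4, h5⟩ := ex_fin S (Finset.Ico (0 : ℤ) (2 ^ K)) U
  refine ⟨D, fun x hx => ?_, h4, fun x hx => ?_⟩
  · obtain ⟨c, -, rfl⟩ := (h5 x).1 hx
    exact hU1 c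
  · obtain ⟨a, rfl⟩ := (h.memX x).1 hx
    obtain ⟨c, hc, h6⟩ := hres K a
    exact ⟨U c, (h5 _).2 ⟨c, hc, rfl⟩, hU2 c a h6⟩

theorem metrizable : Metrizable S.E X τ := by
  classical
  obtain ⟨r, i1, i2, i3, hr⟩ := exists_reals S
  obtain ⟨ad, had⟩ := hr.add
  obtain ⟨le, hle⟩ := hr.le
  let hf : ℕ → El S.E r := fun k => (1 / 2) ^ k
  have hf_pos : ∀ k, 0 < hf k := fun k => by positivity
  have hf_succ : ∀ k, hf (k + 1) + hf (k + 1) = hf k := fun k => by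
    simp only [hf]; ring
  have hf_le : ∀ k j, hf k ≤ hf j ↔ j ≤ k := fun k j =>
    pow_le_pow_iff_right_of_lt_one₀ (by norm_num) (by norm_num)
  let Cl : N → Prop := fun T => Rel S.E T (ε 0) (hf 0).1 ∧
    ∀ e e' z z', Rel S.E suc e e' → Rel S.E T e z → S.E z' r → Rel3 S.E ad z' z' z →
      Rel S.E T e' z'
  let Gd : N → N → Prop := fun e z => ∀ T, Cl T → Rel S.E T e z
  have hGd : D2 S Gd := D2.of _
  have g1 : ∀ k, Gd (ε k) (hf k).1 := fun k T hT => by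
    induction k with
    | zero => exact hT.1
    | succ k ih =>
      exact hT.2 _ _ _ _ ((h.relS _ _).2 ⟨k, rfl, rfl⟩) ih (hf (k + 1)).2
        ((had _ _ _).1 (hf_succ k))
  obtain ⟨T, hT⟩ := ex_rel S lev r (fun e' z' => (e' = ε 0 ∧ z' = (hf 0).1) ∨
    ∃ e z, Rel S.E suc e e' ∧ Gd e z ∧ S.E z r ∧ Rel3 S.E ad z' z' z) (D2.of _)
  have hTc : Cl T := by
    refine ⟨(hT _ _).2 ⟨(h.memL _).2 ⟨0, rfl⟩, (hf 0).2, Or.inl ⟨rfl, rfl⟩⟩,
      fun e e' z z' h1 h2 h3 h4 => (hT _ _).2 ⟨?_, h3, Or.inr ⟨e, z, h1, ?_, ?_, h4⟩⟩⟩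
    · obtain ⟨k, -, rfl⟩ := (h.relS _ _).1 h1
      exact (h.memL _).2 ⟨_, rfl⟩
    · obtain ⟨-, h5, ⟨rfl, rfl⟩ | ⟨e₀, z₀, h6, h7, -, h8⟩⟩ := (hT _ _).1 h2
      · exact g1 0
      · exact fun T' hT' => hT'.2 _ _ _ _ h6 (h7 T' hT') h5 h8
    · exact ((hT _ _).1 h2).2.1
  have g2 : ∀ k z, Gd (ε k) z → z = (hf k).1 := fun k => by
    induction k with
    | zero =>
      intro z hz
      obtain ⟨-, -, h1 | ⟨e, z₀, h1, -⟩⟩ := (hT _ _).1 (hz T hTc)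
      · exact h1.2
      · obtain ⟨j, -, h2⟩ := (h.relS _ _).1 h1
        exact absurd (h.eps_inj h2) (by omega)
    | succ k ih =>
      intro z hz
      obtain ⟨-, h0, h1 | ⟨e, z₀, h1, h2, h3, h4⟩⟩ := (hT _ _).1 (hz T hTc)
      · exact absurd (h.eps_inj h1.1) (by omega)
      · obtain ⟨j, rfl, h5⟩ := (h.relS _ _).1 h1
        obtain rfl : k = j := by have := h.eps_inj h5; omega
        obtain rfl := ih z₀ h2
        obtain ⟨w, rfl⟩ : ∃ w : El S.E r, w.1 = z := ⟨⟨z, h0⟩, rfl⟩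
        have h6 : w + w = hf k := (had _ _ _).2 h4
        have h7 : w = hf (k + 1) := by
          have := hf_succ k
          linarith
        exact congrArg Subtype.val h7
  have arch : ∀ δ : El S.E r, 0 < δ → ∃ k, hf k < δ := by
    intro δ hδ
    by_contra h1
    push Not at h1
    obtain ⟨L, hL⟩ := S.sep (fun z => ∀ e w, S.E e lev → Gd e w → Rel S.E le z w) r
    have hL' : ∀ z : El S.E r, S.E z.1 L ↔ ∀ k, z ≤ hf k := fun z => by
      rw [hL]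
      refine ⟨fun h2 k => (hle _ _).2 (h2.2 _ _ ((h.memL _).2 ⟨k, rfl⟩) (g1 k)),
        fun h2 => ⟨z.2, fun e w h3 h4 => ?_⟩⟩
      obtain ⟨k, rfl⟩ := (h.memL _).1 h3
      rw [g2 k w h4]
      exact (hle _ _).1 (h2 k)
    obtain ⟨c, hc1, hc2⟩ := hr.complete L (fun t ht => ((hL t).1 ht).1) ⟨_, (hL' δ).2 h1⟩
      ⟨hf 0, fun x hx => (hL' x).1 hx 0⟩
    have h2 : ∀ k, c ≤ hf k := fun k => hc2 fun x hx => (hL' x).1 hx k
    have h3 : c + c ≤ c := hc1 ((hL' (c + c)).2 fun k => by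
      have := h2 (k + 1)
      have := hf_succ k
      linarith)
    have h4 : δ ≤ c := hc1 ((hL' δ).2 h1)
    linarith
  let dz : ℤ → ℤ → El S.E r := fun a b =>
    if hab : a = b then 0 else hf (Nat.find (exists_not_cg hab))
  have dz_le : ∀ a b k, dz a b ≤ hf k ↔ Cg k a b := fun a b k => by
    by_cases hab : a = b
    · simp only [dz, dif_pos hab]
      exact iff_of_true (hf_pos k).le (hab ▸ Cg.refl k a)
    · simp only [dz, dif_neg hab]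
      rw [hf_le, Nat.le_find_iff]
      constructor
      · intro h1
        cases k with
        | zero => exact cg_zero a b
        | succ k => exact not_not.1 (h1 k (Nat.lt_succ_self k))
      · exact fun h1 m hm => not_not.2 (h1.mono hm)
  have dz_cases : ∀ a b, (a = b ∧ dz a b = 0) ∨ ∃ k, dz a b = hf k := fun a b => by
    by_cases hab : a = b
    · exact Or.inl ⟨hab, dif_pos hab⟩
    · exact Or.inr ⟨_, dif_neg hab⟩
  have dz_self : ∀ a, dz a a = 0 := fun a => dif_pos rfl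
  have hX : ∀ x : El S.E X, ∃ a, x.1 = α a := fun x => (h.memX _).1 x.2
  choose ι hι using hX
  have hιi : ∀ x y, ι x = ι y → x = y := fun x y h1 => Subtype.ext (by rw [hι, hι, h1])
  have hιs : ∀ a, ∃ x, ι x = a := fun a => ⟨⟨α a, (h.memX _).2 ⟨a, rfl⟩⟩,
    (h.inj (hι ⟨α a, _⟩)).symm⟩
  refine ⟨r, i1, i2, i3, hr, fun x y => dz (ι x) (ι y), ?_, fun x y => ?_, fun x y => ?_,
    fun x y z => ?_, fun U => ?_⟩
  · obtain ⟨W, hW⟩ := ex_prod S X X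
    obtain ⟨g, hg⟩ := ex_rel S W r (fun p z => ∃ x y, IsOP S.E p x y ∧
      ((x = y ∧ z = (0 : El S.E r).1) ∨ ∃ e e', Rel S.E suc e e' ∧ Rel S.E e x y ∧
        ¬ Rel S.E e' x y ∧ Gd e z)) (D2.of _)
    refine ⟨g, fun x y z => ⟨?_, ?_⟩⟩
    · rintro rfl
      obtain ⟨p, hp⟩ := S.ex_op x.1 y.1
      refine ⟨p, hp, (hg _ _).2 ⟨hW _ _ p x.2 y.2 hp, (dz _ _).2, _, _, hp, ?_⟩⟩
      rcases dz_cases (ι x) (ι y) with h1 | ⟨k, h1⟩
      · exact Or.inl ⟨congrArg Subtype.val (hιi x y h1.1), congrArg Subtype.val h1.2⟩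
      · refine Or.inr ⟨ε k, ε (k + 1), (h.relS _ _).2 ⟨k, rfl, rfl⟩, ?_, ?_, ?_⟩
        · rw [hι, hι, h.rel_iff, ← dz_le, h1]
        · rw [hι, hι, h.rel_iff, ← dz_le, h1, hf_le]
          omega
        · change Gd (ε k) (dz (ι x) (ι y)).1
          rw [h1]
          exact g1 k
    · rintro ⟨p, hp, h1⟩
      obtain ⟨-, -, x', y', h2, h3⟩ := (hg _ _).1 h1
      obtain ⟨rfl, rfl⟩ := S.op_inj hp h2
      rcases h3 with ⟨h3, h4⟩ | ⟨e, e', h3, h4, h5, h6⟩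
      · rw [Subtype.ext h3, Subtype.ext h4]
        exact dz_self _
      · obtain ⟨k, rfl, rfl⟩ := (h.relS _ _).1 h3
        rw [hι, hι, h.rel_iff, ← dz_le] at h4 h5
        rw [Subtype.ext (g2 k _ h6)]
        rcases dz_cases (ι x) (ι y) with h7 | ⟨j, h7⟩
        · rw [h7.2] at h5
          exact absurd (hf_pos _).le h5
        · change dz (ι x) (ι y) = hf k
          rw [h7, hf_le] at h4 h5
          rw [h7]
          congr 1
          omega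
  · constructor
    · intro h1
      rcases dz_cases (ι x) (ι y) with h2 | ⟨k, h2⟩
      · exact hιi x y h2.1
      · exact absurd (h2.symm.trans h1) (hf_pos k).ne'
    · rintro rfl
      exact dz_self _
  · have key : ∀ a b, dz a b ≤ dz b a := fun a b => by
      rcases dz_cases b a with h2 | ⟨k, h2⟩
      · rw [h2.1]
      · rw [h2, dz_le]
        exact ((dz_le b a k).1 h2.le).symm
    exact le_antisymm (key _ _) (key _ _)
  · change dz (ι x) (ι z) ≤ dz (ι x) (ι y) + dz (ι y) (ι z)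
    rcases dz_cases (ι x) (ι y) with h1 | ⟨k, h1⟩
    · rw [h1.2, h1.1, zero_add]
    rcases dz_cases (ι y) (ι z) with h2 | ⟨j, h2⟩
    · rw [h2.2, h2.1, add_zero]
    have h3 := (dz_le _ _ _).1 h1.le
    have h4 := (dz_le _ _ _).1 h2.le
    rw [h1, h2]
    have h5 := hf_pos k
    have h6 := hf_pos j
    rcases le_total k j with h7 | h7
    · have := (dz_le _ _ _).2 (h3.trans (h4.mono h7))
      linarith
    · have := (dz_le _ _ _).2 ((h3.mono h7).trans h4)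
      linarith
  · rw [hτ]
    refine and_congr_right fun _ => ⟨fun h1 x hx => ?_, fun h1 a ha => ?_⟩
    · rw [hι] at hx
      obtain ⟨k, hk⟩ := h1 _ hx
      refine ⟨hf k, hf_pos k, fun y hy => ?_⟩
      rw [hι]
      exact hk _ ((dz_le _ _ _).1 hy.le)
    · obtain ⟨x, rfl⟩ := hιs a
      obtain ⟨δ, h2, h3⟩ := h1 x (by rwa [hι])
      obtain ⟨k, hk⟩ := arch δ h2
      refine ⟨k, fun b hb => ?_⟩
      obtain ⟨y, rfl⟩ := hιs b
      rw [← hι]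
      exact h3 y (((dz_le _ _ _).2 hb).trans_lt hk)

end top

end AdicModel

theorem main : ∃ (M : Type) (E : M → M → Prop), IsZF E ∧ ∃ X τ : M,
    Metrizable E X τ ∧ Compact E X τ ∧ (∃ x, E x X) ∧ (∀ x, ¬ Isolated E τ X x) ∧
      ∀ Y, Sub E Y X → Scattered E τ Y → IsFin E Y := by
  obtain ⟨N, S, α, ε, X, lev, suc, h⟩ := exists_adicModel
  obtain ⟨τ, hτ⟩ := h.ex_top
  refine ⟨N, S.E, S.zf, X, τ, h.metrizable hτ, h.compact hτ, ⟨_, (h.memX _).2 ⟨0, rfl⟩⟩,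
    h.not_isolated hτ (k := 0) (a := 0) fun x => (h.memX x).trans ?_, h.fin_of_scattered hτ⟩
  exact exists_congr fun b => ⟨fun h1 => ⟨cg_zero _ _, h1⟩, fun h1 => h1.2⟩

end Pool.Agent.H982Z.Scat
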