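import Pool.Agent.H982Z.Scat.Defs
import Pool.Agent.H164Z.BsptZF
import Pool.Agent.H635R2.RealN

/-!
# Countable models of ZF have real numbers; products and finite sets
-/

set_option autoImplicit false

namespace Pool.Agent.H982Z.Scat

open Pool.Agent.H164Z.Bspt FirstOrder FirstOrder.Language
open Pool.Agent.Helper672.Plain (LSet Zermelo IsOrdPair IsPair)

variable {N : Type} (S : Str N)

/-- The structure for the language of set theory. -/
@[reducible] def lstr : LSet.Structure N where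
  funMap f _ := Empty.elim f
  RelMap {_} r v := match r with
    | .mem => S.E (v 0) (v 1)

theorem tm_shift {t : (ℕ → N) → N} (h : Tm S t) : Tm S (fun w => t fun i => w (i + 1)) := by
  obtain ⟨i, hi⟩ := h.out
  by_cases h0 : i % 2 = 0
  · refine ⟨i + 2, fun w => ?_⟩
    rw [hi, il, il, if_pos h0, if_pos (by omega)]
    congr 1
    omega
  · refine ⟨i, fun w => ?_⟩
    rw [hi, il, il, if_neg h0, if_neg h0]

theorem df_bounded {β : Type} {n : ℕ} (φ : LSet.BoundedFormula β n) :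
    ∀ (f : β → (ℕ → N) → N) (xs : Fin n → (ℕ → N) → N), (∀ b, Tm S (f b)) → (∀ i, Tm S (xs i)) →
      Df S (fun v => @BoundedFormula.Realize LSet N (lstr S) β n φ (fun b => f b v)
        (fun i => xs i v)) := by
  let _ := lstr S
  have ht : ∀ {n : ℕ} (t : LSet.Term (β ⊕ Fin n)) (f : β → (ℕ → N) → N)
      (xs : Fin n → (ℕ → N) → N), (∀ b, Tm S (f b)) → (∀ i, Tm S (xs i)) →
      Tm S (fun v => t.realize (Sum.elim (fun b => f b v) (fun i => xs i v))) := by
    intro n t f xs hf hx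
    cases t with
    | var a =>
      cases a with
      | inl b => exact hf b
      | inr i => exact hx i
    | func g _ => exact Empty.elim g
  induction φ with
  | falsum =>
    intro f xs _ _
    exact Df.congr (p := fun v => ¬ v 0 = v 0) inferInstance fun v =>
      ⟨fun h => h.elim, fun h => h rfl⟩
  | equal t₁ t₂ =>
    intro f xs hf hx
    have h1 := ht t₁ f xs hf hx
    have h2 := ht t₂ f xs hf hx
    exact Df.eq S _ _
  | rel R ts =>
    intro f xs hf hx
    cases R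
    have h1 := ht (ts 0) f xs hf hx
    have h2 := ht (ts 1) f xs hf hx
    exact Df.mem S _ _
  | imp φ ψ ih ih' =>
    intro f xs hf hx
    have h1 := ih f xs hf hx
    have h2 := ih' f xs hf hx
    exact Df.imp S _ _
  | all φ ih =>
    intro f xs hf hx
    have h1 := ih (fun b w => f b fun i => w (i + 1))
      (Fin.snoc (α := fun _ => (ℕ → N) → N) (fun j w => xs j fun i => w (i + 1)) (fun w => w 0))
      (fun b => tm_shift S (hf b)) (fun j => by
        refine Fin.lastCases ?_ (fun j => ?_) j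
        · rw [Fin.snoc_last]; infer_instance
        · rw [Fin.snoc_castSucc]; exact tm_shift S (hx j))
    refine Df.all S (fun v x => φ.Realize (fun b => f b v) (Fin.snoc (fun i => xs i v) x))
      (h := h1.congr fun w => ?_)
    congr! 1
    funext j
    refine Fin.lastCases ?_ (fun j => ?_) j
    · simp only [Fin.snoc_last]
    · simp only [Fin.snoc_castSucc]

theorem zermelo : @Zermelo N (lstr S) := by
  let _ := lstr S
  refine ⟨S.zf.ext, S.zf.pair, S.zf.union, S.zf.power, S.zf.inf, fun T hT x => ?_⟩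
  obtain ⟨φ, hφ⟩ := Set.definable_iff_exists_formula_sum.1 hT
  have h := df_bounded S φ (fun b v => Sum.elim (fun a : (Set.univ : Set N) => (a : N))
    (fun _ : Fin 1 => v 0) b) (fun i => Fin.elim0 i) (fun b => by
      cases b with
      | inl a => exact Tm.const S _
      | inr i => exact Tm.var S 0) (fun i => Fin.elim0 i)
  refine S.sep (fun z => z ∈ T) (h := h.congr fun v => ?_) x
  refine (Set.ext_iff.1 hφ (fun _ : Fin 1 => v 0)).trans ?_
  have e1 : (fun i : Fin 0 => (Fin.elim0 i : (ℕ → N) → N) v) = default :=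
    funext fun i => Fin.elim0 i
  rw [e1]
  exact Iff.rfl

theorem ordPair_iff (p x y : N) : @IsOrdPair N (lstr S) p x y ↔ IsOP S.E p x y := by
  constructor
  · rintro ⟨s, d, hs, hd, hp⟩ t
    refine (hp t).trans (or_congr ⟨?_, fun h => ?_⟩ ⟨?_, fun h => ?_⟩)
    · rintro rfl z; exact (hs z).trans (or_self_iff)
    · exact S.zf.ext _ _ fun z => (h z).trans ((hs z).trans (or_self_iff)).symm
    · rintro rfl; exact hd
    · exact S.zf.ext _ _ fun z => (h z).trans (hd z).symm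
  · intro h
    obtain ⟨s, hs⟩ := S.zf.pair x x
    obtain ⟨d, hd⟩ := S.zf.pair x y
    refine ⟨s, d, hs, hd, fun t => (h t).trans (or_congr ⟨fun h1 => ?_, ?_⟩ ⟨fun h1 => ?_, ?_⟩)⟩
    · exact S.zf.ext _ _ fun z => (h1 z).trans ((hs z).trans (or_self_iff)).symm
    · rintro rfl z; exact (hs z).trans (or_self_iff)
    · exact S.zf.ext _ _ fun z => (h1 z).trans (hd z).symm
    · rintro rfl; exact hd

theorem exists_reals : ∃ (r : N) (_ : Field (El S.E r)) (_ : LinearOrder (El S.E r))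
    (_ : IsStrictOrderedRing (El S.E r)), IsReals S.E r := by
  let _ := lstr S
  obtain ⟨r, i1, i2, i3, ⟨g1, h1⟩, ⟨g2, h2⟩, ⟨g3, h3⟩, h4⟩ :=
    Pool.Agent.Helper672.ZFA.H635.exists_reals (zermelo S)
  refine ⟨r, i1, i2, i3, @IsReals.mk N S.E r i1 i2 i3 ⟨g1, fun x y z => (h1 x y z).trans ?_⟩
    ⟨g2, fun x y z => (h2 x y z).trans ?_⟩ ⟨g3, fun x y => (h3 x y).trans ?_⟩
    fun s hs => h4 ⟨s, hs⟩⟩
  · simp only [ordPair_iff]
    exact ⟨fun ⟨p, q, a, b, c⟩ => ⟨p, a, q, c, b⟩, fun ⟨p, a, q, c, b⟩ => ⟨p, q, a, b, c⟩⟩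
  · simp only [ordPair_iff]
    exact ⟨fun ⟨p, q, a, b, c⟩ => ⟨p, a, q, c, b⟩, fun ⟨p, a, q, c, b⟩ => ⟨p, q, a, b, c⟩⟩
  · simp only [ordPair_iff]
    exact ⟨fun ⟨p, a, b⟩ => ⟨p, b, a⟩, fun ⟨p, b, a⟩ => ⟨p, a, b⟩⟩

theorem ex_prod (A B : N) : ∃ W, ∀ a b p, S.E a A → S.E b B → IsOP S.E p a b → S.E p W := by
  obtain ⟨U, hU⟩ := S.ex_union2 A B
  obtain ⟨V, hV⟩ := S.zf.power U
  obtain ⟨W, hW⟩ := S.zf.power V
  refine ⟨W, fun a b p ha hb hp => (hW p).2 fun t ht => (hV t).2 fun z hz => (hU z).2 ?_⟩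
  rcases (hp t).1 ht with h | h
  · exact Or.inl ((h z).1 hz ▸ ha)
  · rcases (h z).1 hz with rfl | rfl
    · exact Or.inl ha
    · exact Or.inr hb

/-- A definable relation between two sets is given by a set. -/
theorem ex_rel (A B : N) (R : N → N → Prop) (hR : D2 S R) :
    ∃ g, ∀ a b, Rel S.E g a b ↔ S.E a A ∧ S.E b B ∧ R a b := by
  obtain ⟨W, hW⟩ := ex_prod S A B
  obtain ⟨g, hg⟩ := S.sep (fun p => ∃ a b, IsOP S.E p a b ∧ S.E a A ∧ S.E b B ∧ R a b) W
  refine ⟨g, fun a b => ⟨?_, fun h => ?_⟩⟩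
  · rintro ⟨p, hp, h1⟩
    obtain ⟨-, a', b', h2, h3⟩ := (hg p).1 hp
    obtain ⟨rfl, rfl⟩ := S.op_inj h1 h2
    exact h3
  · obtain ⟨p, hp⟩ := S.ex_op a b
    exact ⟨p, (hg p).2 ⟨hW a b p h.1 h.2.1 hp, a, b, hp, h⟩, hp⟩

theorem ex_fin {ι : Type} (s : Finset ι) (f : ι → N) :
    ∃ D, IsFin S.E D ∧ ∀ x, S.E x D ↔ ∃ i ∈ s, x = f i := by
  classical
  induction s using Finset.induction_on with
  | empty =>
    obtain ⟨e, he⟩ := S.ex_empty
    exact ⟨e, S.fin_empty he, fun x => iff_of_false (he x) (by simp)⟩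
  | insert i s _ ih =>
    obtain ⟨D, h1, h2⟩ := ih
    obtain ⟨D', h3⟩ := S.ex_insert D (f i)
    refine ⟨D', S.fin_insert h1 h3, fun x => ?_⟩
    rw [h3, h2]
    simp only [Finset.mem_insert, exists_eq_or_imp]
    exact or_comm

instance df_rel3 (g x y z : (ℕ → N) → N) [Tm S g] [Tm S x] [Tm S y] [Tm S z] :
    Df S (fun v => Rel3 S.E (g v) (x v) (y v) (z v)) := by
  have h : Df S (fun v => Rel3 S.E (v 0) (v 1) (v 2) (v 3)) := by
    unfold Rel3; infer_instance
  exact h.subst (fun v => cons (g v) (cons (x v) (cons (y v) (cons (z v) fun i => v i))))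

end Pool.Agent.H982Z.Scat
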